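import Mathlib
import Pool.Agent.TH285.FreeB
import Pool.Agent.Helper212.Iso

/-!
# MP_651bcb_an: the width of the class of free pmp actions of a non-amenable group is `|ℝ|`

The antichain: for `0 < t < 1/2` take the disjoint union of two copies of the Bernoulli shift of `Γ`
on `{0,1}^Γ`, of masses `t` and `1 - t`.
-/

set_option autoImplicit false
set_option linter.unusedSectionVars false

open MeasureTheory Filter Topology Set

namespace Pool.Agent.Results.MP_651bcb_an.WidthContinuum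

open Cardinal

/-- amenability of a discrete group: there is a left invariant finitely additive probability
measure defined on all subsets of the group -/
def IsAmenable (Γ : Type) [Group Γ] : Prop :=
  ∃ m : Set Γ → ℝ, (∀ A, 0 ≤ m A) ∧ m univ = 1 ∧
    (∀ A B : Set Γ, Disjoint A B → m (A ∪ B) = m A + m B) ∧
    ∀ (g : Γ) (A : Set Γ), m ((fun x => g * x) '' A) = m A

/-- a probability measure preserving action of `Γ` on `(X, μ)` -/
structure PmpAction (Γ : Type) [Group Γ] {X : Type} [MeasurableSpace X] (μ : Measure X) where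
  /-- the action map -/
  act : Γ → X → X
  act_one : ∀ x, act 1 x = x
  act_mul : ∀ g h x, act (g * h) x = act g (act h x)
  pres : ∀ g, MeasurePreserving (act g) μ μ

variable {Γ : Type} [Group Γ] {X : Type} [MeasurableSpace X] {μ : Measure X}

/-- the action is free: every group element other than `1` moves almost every point -/
def IsFree (a : PmpAction Γ μ) : Prop := ∀ g, g ≠ 1 → ∀ᵐ x ∂μ, a.act g x ≠ x

/-- `b ≼ a`: the action `b` is weakly contained in `a` in the sense of Kechris -/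
def WeaklyContained (b a : PmpAction Γ μ) : Prop :=
  ∀ (F : Finset Γ) (ε : ℝ), 0 < ε → ∀ (n : ℕ) (A : Fin n → Set X), (∀ i, MeasurableSet (A i)) →
    ∃ B : Fin n → Set X, (∀ i, MeasurableSet (B i)) ∧ ∀ g ∈ F, ∀ i j,
      |μ.real (b.act g '' A i ∩ A j) - μ.real (a.act g '' B i ∩ B j)| < ε

/-- an antichain of free actions: a set of free actions, any two distinct members of which are
incomparable for weak containment -/
def IsFreeAntichain (𝒜 : Set (PmpAction Γ μ)) : Prop :=
  (∀ a ∈ 𝒜, IsFree a) ∧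
    ∀ a ∈ 𝒜, ∀ b ∈ 𝒜, a ≠ b → ¬ WeaklyContained a b ∧ ¬ WeaklyContained b a

/-- the supremum of the cardinalities of the antichains of free actions of `Γ` on `(X, μ)` -/
noncomputable def width (Γ : Type) [Group Γ] {X : Type} [MeasurableSpace X] (μ : Measure X) :
    Cardinal :=
  ⨆ 𝒜 : {𝒜 : Set (PmpAction Γ μ) // IsFreeAntichain 𝒜}, #(𝒜.1)

/-! ### The upper bound -/

theorem card_measurable (X : Type) [MeasurableSpace X] [StandardBorelSpace X] :
    #{f : X → X // Measurable f} ≤ 𝔠 := by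
  have h1 : #{s : Set X // MeasurableSet s} ≤ 𝔠 := by
    obtain ⟨b, hb, hgen⟩ := MeasurableSpace.CountablyGenerated.isCountablyGenerated (α := X)
    have h2 : #b ≤ 𝔠 := (le_aleph0_iff_set_countable.2 hb).trans aleph0_le_continuum
    have h3 := MeasurableSpace.cardinal_measurableSet_le_continuum h2
    rw [← hgen] at h3
    exact h3
  have h4 : #(ℕ → {s : Set X // MeasurableSet s}) ≤ 𝔠 := by
    rw [← power_def, mk_nat]
    calc #{s : Set X // MeasurableSet s} ^ ℵ₀ ≤ 𝔠 ^ ℵ₀ := power_le_power_right h1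
      _ = 𝔠 := continuum_power_aleph0
  refine le_trans (mk_le_of_injective (f := fun f : {f : X → X // Measurable f} => fun n : ℕ =>
    (⟨{x | MeasurableSpace.mapNatBool X (f.1 x) n = true}, ?_⟩ : {s : Set X // MeasurableSet s})) ?_) h4
  · have h5 : Measurable fun x => MeasurableSpace.mapNatBool X (f.1 x) n :=
      measurable_pi_iff.1 ((MeasurableSpace.measurable_mapNatBool X).comp f.2) n
    exact h5 (measurableSet_singleton true)
  · intro f g hfg
    apply Subtype.ext
    funext x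
    apply MeasurableSpace.injective_mapNatBool (α := X)
    funext n
    have h6 := congrArg Subtype.val (congrFun hfg n)
    have h7 : x ∈ {x | MeasurableSpace.mapNatBool X (f.1 x) n = true} ↔
        x ∈ {x | MeasurableSpace.mapNatBool X (g.1 x) n = true} := by
      rw [show {x | MeasurableSpace.mapNatBool X (f.1 x) n = true} =
        {x | MeasurableSpace.mapNatBool X (g.1 x) n = true} from h6]
    simp only [mem_ofPred_eq] at h7
    exact Bool.eq_iff_iff.2 h7

theorem card_action (Γ : Type) [Group Γ] [Countable Γ] {X : Type} [MeasurableSpace X]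
    [StandardBorelSpace X] (μ : Measure X) : #(PmpAction Γ μ) ≤ 𝔠 := by
  have h1 : #(Γ → {f : X → X // Measurable f}) ≤ 𝔠 := by
    rw [← power_def]
    calc #{f : X → X // Measurable f} ^ #Γ ≤ 𝔠 ^ #Γ := power_le_power_right (card_measurable X)
      _ ≤ 𝔠 ^ ℵ₀ := power_le_power_left continuum_ne_zero (mk_le_aleph0_iff.2 inferInstance)
      _ = 𝔠 := continuum_power_aleph0
  refine le_trans (mk_le_of_injective (f := fun (a : PmpAction Γ μ) (g : Γ) =>
    (⟨a.act g, (a.pres g).measurable⟩ : {f : X → X // Measurable f})) ?_) h1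
  intro a b hab
  have h2 : a.act = b.act := by
    funext g
    exact congrArg Subtype.val (congrFun hab g)
  cases a
  cases b
  simp only at h2
  subst h2
  rfl


/-! ### The antichain -/

open Pool.Agent.TH285

/-- the measure on `Bool` giving mass `t` to `true` and `1 - t` to `false` -/
noncomputable def two (t : ℝ) : Measure Bool :=
  ENNReal.ofReal t • Measure.dirac true + ENNReal.ofReal (1 - t) • Measure.dirac false

theorem two_prob {t : ℝ} (h0 : 0 ≤ t) (h1 : t ≤ 1) : IsProbabilityMeasure (two t) := by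
  constructor
  simp only [two, Measure.coe_add, Measure.coe_smul, Pi.add_apply, Pi.smul_apply, smul_eq_mul,
    measure_univ, mul_one]
  rw [← ENNReal.ofReal_add h0 (by linarith)]
  simp

/-- the measure on two copies of `{0,1}^Γ` -/
noncomputable def rho (Γ : Type) (t : ℝ) : Measure (Bool × (Γ → Bool)) := (two t).prod (bern Γ)

/-- the diagonal action on the two copies -/
def dbl (g : Γ) (z : Bool × (Γ → Bool)) : Bool × (Γ → Bool) := (z.1, shift g z.2)

theorem rho_apply {t : ℝ} (h0 : 0 ≤ t) (h1 : t ≤ 1) (S : Set (Bool × (Γ → Bool)))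
    (hS : MeasurableSet S) : (rho Γ t).real S = t * (bern Γ).real {y | (true, y) ∈ S} +
      (1 - t) * (bern Γ).real {y | (false, y) ∈ S} := by
  have := two_prob h0 h1
  have h2 : rho Γ t S = ENNReal.ofReal t * bern Γ {y | (true, y) ∈ S} +
      ENNReal.ofReal (1 - t) * bern Γ {y | (false, y) ∈ S} := by
    unfold rho
    rw [Measure.prod_apply hS, two, lintegral_add_measure, lintegral_smul_measure,
      lintegral_smul_measure, lintegral_dirac, lintegral_dirac]
    rfl
  unfold Measure.real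
  rw [h2, ENNReal.toReal_add (by finiteness) (by finiteness), ENNReal.toReal_mul,
    ENNReal.toReal_mul, ENNReal.toReal_ofReal h0, ENNReal.toReal_ofReal (by linarith)]

theorem dbl_mp [Countable Γ] {t : ℝ} (h0 : 0 ≤ t) (h1 : t ≤ 1) (g : Γ) :
    MeasurePreserving (dbl g) (rho Γ t) (rho Γ t) := by
  have := two_prob h0 h1
  exact (MeasurePreserving.id (two t)).prod (shift_mp g)

theorem dbl_one (z : Bool × (Γ → Bool)) : dbl 1 z = z := by
  unfold dbl shift
  simp

theorem dbl_mul (g h : Γ) (z : Bool × (Γ → Bool)) : dbl (g * h) z = dbl g (dbl h z) := by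
  unfold dbl shift
  simp [mul_assoc]

theorem dbl_free [Countable Γ] [Infinite Γ] {t : ℝ} (h0 : 0 ≤ t) (h1 : t ≤ 1) (g : Γ)
    (hg : g ≠ 1) : ∀ᵐ z ∂(rho Γ t), dbl g z ≠ z := by
  have := two_prob h0 h1
  have h2 : MeasurableSet {z : Bool × (Γ → Bool) | dbl g z = z} :=
    measurableSet_eq_fun (dbl_mp h0 h1 g).measurable measurable_id
  rw [ae_iff]
  simp only [not_not]
  have h3 : (rho Γ t).real {z : Bool × (Γ → Bool) | dbl g z = z} = 0 := by
    rw [rho_apply h0 h1 _ h2]
    have h4 : ∀ b : Bool, (bern Γ).real {y | (b, y) ∈ {z : Bool × (Γ → Bool) | dbl g z = z}} = 0 := by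
      intro b
      have h5 : {y | (b, y) ∈ {z : Bool × (Γ → Bool) | dbl g z = z}} = {y | shift g y = y} := by
        ext y
        simp [dbl]
      rw [h5, Measure.real, shift_free g hg]
      rfl
    rw [h4, h4]
    ring
  have : IsProbabilityMeasure (rho Γ t) := by unfold rho; infer_instance
  rwa [measureReal_eq_zero_iff] at h3

theorem exists_iso [Countable Γ] [Infinite Γ] [StandardBorelSpace X] [IsProbabilityMeasure μ]
    (hμ : ∀ x, μ {x} = 0) {t : ℝ} (h0 : 0 ≤ t) (h1 : t ≤ 1) :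
    ∃ e : X ≃ᵐ Bool × (Γ → Bool), MeasurePreserving e μ (rho Γ t) := by
  have := two_prob h0 h1
  have : IsProbabilityMeasure (rho Γ t) := by unfold rho; infer_instance
  have : NullSingletonClass μ := ⟨hμ⟩
  have : NullSingletonClass (rho Γ t) := by
    refine ⟨?_⟩
    rintro ⟨b, y⟩
    unfold rho
    rw [← Set.singleton_prod_singleton, Measure.prod_prod, bern_singleton, mul_zero]
  obtain ⟨e, he⟩ := Pool.Agent.Helper212.Sq.exists_mp_equiv μ
  obtain ⟨f, hf⟩ := Pool.Agent.Helper212.Sq.exists_mp_equiv (rho Γ t)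
  exact ⟨e.trans f.symm, (hf.symm f).comp he⟩

/-- transport of the diagonal action -/
def conj [Countable Γ] {t : ℝ} (h0 : 0 ≤ t) (h1 : t ≤ 1) (e : X ≃ᵐ Bool × (Γ → Bool))
    (he : MeasurePreserving e μ (rho Γ t)) : PmpAction Γ μ where
  act g x := e.symm (dbl g (e x))
  act_one x := by rw [dbl_one, e.symm_apply_apply]
  act_mul g h x := by rw [dbl_mul, e.apply_symm_apply]
  pres g := (he.symm e).comp ((dbl_mp h0 h1 g).comp he)

theorem conj_free [Countable Γ] [Infinite Γ] {t : ℝ} (h0 : 0 ≤ t) (h1 : t ≤ 1)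
    (e : X ≃ᵐ Bool × (Γ → Bool)) (he : MeasurePreserving e μ (rho Γ t)) :
    IsFree (conj h0 h1 e he) := by
  intro g hg
  have h2 := he.quasiMeasurePreserving.ae (dbl_free h0 h1 g hg)
  filter_upwards [h2] with x hx hx2
  apply hx
  have h3 : e.symm (dbl g (e x)) = x := hx2
  calc dbl g (e x) = e (e.symm (dbl g (e x))) := (e.apply_symm_apply _).symm
    _ = e x := by rw [h3]


/-- arithmetic of the four cases -/
theorem cases_aux {t t' s1 s0 η ε δ : ℝ} (ht0 : 0 < t) (ht : t < 1 / 2) (ht0' : 0 < t')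
    (ht' : t' < 1 / 2) (hs1 : 0 ≤ s1) (hs1' : s1 ≤ 1) (hs0 : 0 ≤ s0) (hs0' : s0 ≤ 1)
    (h1 : s1 * (1 - s1) ≤ η) (h0 : s0 * (1 - s0) ≤ η) (hε : |t - (t' * s1 + (1 - t') * s0)| < ε)
    (hδ1 : δ ≤ t) (hδ2 : δ ≤ 1 / 2 - t) (hδ3 : δ ≤ |t - t'|) (hη : 2 * η + ε ≤ δ) : False := by
  have key : ∀ s : ℝ, 0 ≤ s → s ≤ 1 → s * (1 - s) ≤ η → s ≤ 2 * η ∨ 1 - s ≤ 2 * η := by
    intro s hs hs' h
    rcases le_total s (1 / 2) with h2 | h2
    · left; nlinarith
    · right; nlinarith
  rw [abs_lt] at hε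
  obtain ⟨e1, e2⟩ := hε
  rcases key s1 hs1 hs1' h1 with a | a <;> rcases key s0 hs0 hs0' h0 with b | b
  · nlinarith
  · nlinarith
  · rcases le_total t t' with c | c
    · rw [abs_of_nonpos (by linarith)] at hδ3
      nlinarith
    · rw [abs_of_nonneg (by linarith)] at hδ3
      nlinarith
  · nlinarith

theorem incomparable [Countable Γ] (hΓ : ¬ IsAmenable Γ) [IsProbabilityMeasure μ] {t t' : ℝ}
    (ht0 : 0 < t) (ht : t < 1 / 2) (ht0' : 0 < t') (ht' : t' < 1 / 2) (hne : t ≠ t')
    (h0 : 0 ≤ t) (h1 : t ≤ 1) (h0' : 0 ≤ t') (h1' : t' ≤ 1)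
    (e : X ≃ᵐ Bool × (Γ → Bool)) (he : MeasurePreserving e μ (rho Γ t))
    (e' : X ≃ᵐ Bool × (Γ → Bool)) (he' : MeasurePreserving e' μ (rho Γ t')) :
    ¬ WeaklyContained (conj h0 h1 e he) (conj h0' h1' e' he') := by
  classical
  intro hwc
  obtain ⟨F, K, hK, hstr⟩ := strong (G := Γ) hΓ
  -- the constants
  obtain ⟨δ, hδ0, hδ1, hδ2, hδ3⟩ : ∃ δ : ℝ, 0 < δ ∧ δ ≤ t ∧ δ ≤ 1 / 2 - t ∧ δ ≤ |t - t'| := by
    refine ⟨min t (min (1 / 2 - t) |t - t'|), ?_, min_le_left _ _,
      (min_le_right _ _).trans (min_le_left _ _), (min_le_right _ _).trans (min_le_right _ _)⟩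
    exact lt_min ht0 (lt_min (by linarith) (abs_pos.2 (sub_ne_zero.2 hne)))
  obtain ⟨N, hN, hNpos⟩ : ∃ N : ℝ, N = (F.card : ℝ) + 1 ∧ 0 < N := ⟨_, rfl, by positivity⟩
  obtain ⟨ε, hεpos, hε1, hε2⟩ : ∃ ε : ℝ, 0 < ε ∧ ε ≤ δ / 4 ∧ ε ≤ δ * t' / (16 * K * N) :=
    ⟨min (δ / 4) (δ * t' / (16 * K * N)), lt_min (by positivity) (by positivity),
      min_le_left _ _, min_le_right _ _⟩
  have hrp : IsProbabilityMeasure (rho Γ t') := by
    have := two_prob h0' h1'
    unfold rho; infer_instance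
  -- the set of measure `t`
  set A : Set X := e ⁻¹' {z | z.1 = true} with hA
  have hAm : MeasurableSet {z : Bool × (Γ → Bool) | z.1 = true} :=
    measurable_fst (measurableSet_singleton true)
  have hAim : ∀ g, (conj h0 h1 e he).act g '' A ∩ A = A := by
    intro g
    apply Set.inter_eq_right.2
    intro x hx
    refine ⟨e.symm (dbl g⁻¹ (e x)), ?_, ?_⟩
    · show (e (e.symm (dbl g⁻¹ (e x)))).1 = true
      rw [e.apply_symm_apply]
      exact hx
    · show e.symm (dbl g (e (e.symm (dbl g⁻¹ (e x))))) = x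
      rw [e.apply_symm_apply, ← dbl_mul, mul_inv_cancel, dbl_one, e.symm_apply_apply]
  have hAt : μ.real A = t := by
    have h2 : μ.real A = (rho Γ t).real {z | z.1 = true} := by
      unfold Measure.real
      rw [hA, he.measure_preimage hAm.nullMeasurableSet]
    rw [h2, rho_apply h0 h1 _ hAm]
    simp
  obtain ⟨B, hB, hB2⟩ := hwc (insert 1 (F.image fun g => g⁻¹)) ε hεpos 1 (fun _ => A)
    (fun _ => e.measurable hAm)
  set C : Set X := B 0 with hC
  have hCm : MeasurableSet C := hB 0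
  have hg : ∀ g ∈ insert 1 (F.image fun g => g⁻¹),
      |t - μ.real ((conj h0' h1' e' he').act g '' C ∩ C)| < ε := by
    intro g hg
    have := hB2 g hg 0 0
    rwa [hAim, hAt] at this
  -- transport to the model
  set D : Set (Bool × (Γ → Bool)) := e'.symm ⁻¹' C with hD
  have hDm : MeasurableSet D := e'.symm.measurable hCm
  have hCD : C = e' ⁻¹' D := by
    ext x
    simp [hD]
  have himg : ∀ g, (conj h0' h1' e' he').act g '' C = e' ⁻¹' (dbl g⁻¹ ⁻¹' D) := by
    intro g
    ext x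
    constructor
    · rintro ⟨y, hy, rfl⟩
      show e'.symm (dbl g⁻¹ (e' (e'.symm (dbl g (e' y))))) ∈ C
      rw [e'.apply_symm_apply, ← dbl_mul, inv_mul_cancel, dbl_one, e'.symm_apply_apply]
      exact hy
    · intro hx
      refine ⟨e'.symm (dbl g⁻¹ (e' x)), hx, ?_⟩
      show e'.symm (dbl g (e' (e'.symm (dbl g⁻¹ (e' x))))) = x
      rw [e'.apply_symm_apply, ← dbl_mul, mul_inv_cancel, dbl_one, e'.symm_apply_apply]
  have hreal : ∀ S : Set (Bool × (Γ → Bool)), MeasurableSet S → μ.real (e' ⁻¹' S) =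
      (rho Γ t').real S := by
    intro S hS
    unfold Measure.real
    rw [he'.measure_preimage hS.nullMeasurableSet]
  have hpre : ∀ g : Γ, MeasurableSet (dbl g ⁻¹' D) := fun g => (dbl_mp h0' h1' g).measurable hDm
  have hg2 : ∀ g ∈ insert 1 (F.image fun g => g⁻¹),
      |t - (rho Γ t').real (dbl g⁻¹ ⁻¹' D ∩ D)| < ε := by
    intro g hgm
    have h2 := hg g hgm
    rw [himg, hCD, ← Set.preimage_inter, hreal _ ((hpre _).inter hDm)] at h2
    exact h2
  have hD1 : |t - (rho Γ t').real D| < ε := by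
    have h2 := hg2 1 (Finset.mem_insert_self _ _)
    have h3 : dbl (1 : Γ)⁻¹ ⁻¹' D ∩ D = D := by
      ext z
      simp [dbl_one]
    rwa [h3] at h2
  set s1 : ℝ := (bern Γ).real {y | (true, y) ∈ D} with hs1
  set s0 : ℝ := (bern Γ).real {y | (false, y) ∈ D} with hs0
  have hm1 : MeasurableSet {y | (true, y) ∈ D} := measurable_prodMk_left hDm
  have hm0 : MeasurableSet {y | (false, y) ∈ D} := measurable_prodMk_left hDm
  have hsym : ∀ g ∈ F, (rho Γ t').real (symmDiff (dbl g ⁻¹' D) D) ≤ 4 * ε := by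
    intro g hgF
    have h2 := hg2 g⁻¹ (Finset.mem_insert_of_mem (Finset.mem_image_of_mem _ hgF))
    rw [inv_inv] at h2
    have h3 : (rho Γ t').real (dbl g ⁻¹' D) = (rho Γ t').real D := by
      unfold Measure.real
      rw [(dbl_mp h0' h1' g).measure_preimage hDm.nullMeasurableSet]
    have h4 : (rho Γ t').real (symmDiff (dbl g ⁻¹' D) D) =
        (rho Γ t').real (dbl g ⁻¹' D) + (rho Γ t').real D -
          2 * (rho Γ t').real (dbl g ⁻¹' D ∩ D) := by
      have h5 := measureReal_sdiff_add_inter (μ := rho Γ t') (s := dbl g ⁻¹' D) hDm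
      have h6 := measureReal_sdiff_add_inter (μ := rho Γ t') (s := D) (hpre g)
      rw [Set.inter_comm D] at h6
      have h7 : (rho Γ t').real (symmDiff (dbl g ⁻¹' D) D) =
          (rho Γ t').real (dbl g ⁻¹' D \ D) + (rho Γ t').real (D \ dbl g ⁻¹' D) := by
        rw [Set.symmDiff_def, measureReal_union disjoint_sdiff_sdiff (hDm.diff (hpre g))]
      linarith
    rw [h4, h3]
    rw [abs_lt] at h2 hD1
    linarith [h2.1, h2.2, hD1.1, hD1.2]
  have hfib : ∀ g ∈ F, t' * (bern Γ).real (symmDiff (shift g ⁻¹' {y | (true, y) ∈ D})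
      {y | (true, y) ∈ D}) + (1 - t') * (bern Γ).real (symmDiff (shift g ⁻¹' {y | (false, y) ∈ D})
      {y | (false, y) ∈ D}) ≤ 4 * ε := by
    intro g hgF
    have h2 := hsym g hgF
    rw [rho_apply h0' h1' _ ((hpre g).symmDiff hDm)] at h2
    exact h2
  have hKN : ∀ x : ℝ, x ≤ K * (N * (4 * ε / t')) → x ≤ δ / 4 := by
    intro x hx
    refine hx.trans ?_
    calc K * (N * (4 * ε / t')) ≤ K * (N * (4 * (δ * t' / (16 * K * N)) / t')) := by gcongr
      _ = δ / 4 := by field_simp; norm_num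
  have hv1 : s1 * (1 - s1) ≤ δ / 4 := by
    apply hKN
    refine (hstr _ hm1).trans ?_
    refine mul_le_mul_of_nonneg_left ?_ hK.le
    refine (Finset.sum_le_card_nsmul F _ (4 * ε / t') fun g hgF => ?_).trans ?_
    · rw [le_div_iff₀ ht0', mul_comm]
      have h3 := hfib g hgF
      have h4 : 0 ≤ (1 - t') * (bern Γ).real (symmDiff (shift g ⁻¹' {y | (false, y) ∈ D})
          {y | (false, y) ∈ D}) := mul_nonneg (by linarith) measureReal_nonneg
      linarith
    · rw [nsmul_eq_mul]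
      refine mul_le_mul_of_nonneg_right ?_ (by positivity)
      rw [hN]; linarith
  have hv0 : s0 * (1 - s0) ≤ δ / 4 := by
    apply hKN
    refine (hstr _ hm0).trans ?_
    refine mul_le_mul_of_nonneg_left ?_ hK.le
    refine (Finset.sum_le_card_nsmul F _ (4 * ε / t') fun g hgF => ?_).trans ?_
    · rw [le_div_iff₀ ht0', mul_comm]
      have h3 := hfib g hgF
      have h4 : 0 ≤ t' * (bern Γ).real (symmDiff (shift g ⁻¹' {y | (true, y) ∈ D})
          {y | (true, y) ∈ D}) := mul_nonneg (by linarith) measureReal_nonneg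
      have h5 : t' * (bern Γ).real (symmDiff (shift g ⁻¹' {y | (false, y) ∈ D})
          {y | (false, y) ∈ D}) ≤ (1 - t') * (bern Γ).real (symmDiff
            (shift g ⁻¹' {y | (false, y) ∈ D}) {y | (false, y) ∈ D}) :=
        mul_le_mul_of_nonneg_right (by linarith) measureReal_nonneg
      linarith
    · rw [nsmul_eq_mul]
      refine mul_le_mul_of_nonneg_right ?_ (by positivity)
      rw [hN]; linarith
  rw [rho_apply h0' h1' _ hDm] at hD1
  exact cases_aux (η := δ / 4) (ε := ε) (δ := δ) ht0 ht ht0' ht' measureReal_nonneg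
    measureReal_le_one measureReal_nonneg measureReal_le_one hv1 hv0 hD1 hδ1 hδ2 hδ3 (by linarith)

/-- **The width of the class of free pmp actions of a non-amenable group is `|ℝ|`.**  Let `Γ` be a
countable non-amenable group and `(X, μ)` the standard non-atomic probability space.  There is a set
of free pmp actions of `Γ` on `(X, μ)` of cardinality `|ℝ|` whose members are pairwise incomparable
for weak containment; every such set has cardinality at most `|ℝ|`; so the width is `|ℝ|`. -/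
theorem result (Γ : Type) [Group Γ] [Countable Γ] (hΓ : ¬ IsAmenable Γ)
    (X : Type) [MeasurableSpace X] [StandardBorelSpace X] (μ : Measure X) [IsProbabilityMeasure μ]
    (hμ : ∀ x, μ {x} = 0) :
    (∃ 𝒜 : Set (PmpAction Γ μ), IsFreeAntichain 𝒜 ∧ #𝒜 = 𝔠) ∧
      (∀ 𝒜 : Set (PmpAction Γ μ), IsFreeAntichain 𝒜 → #𝒜 ≤ 𝔠) ∧ width Γ μ = 𝔠 := by
  have hinf : Infinite Γ := infinite_of_not_amenable hΓ
  have hub : ∀ 𝒜 : Set (PmpAction Γ μ), IsFreeAntichain 𝒜 → #𝒜 ≤ 𝔠 := fun 𝒜 _ =>
    (mk_set_le 𝒜).trans (card_action Γ μ)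
  have hex : ∃ 𝒜 : Set (PmpAction Γ μ), IsFreeAntichain 𝒜 ∧ #𝒜 = 𝔠 := by
    have h01 : ∀ t : Ioo (0 : ℝ) (1 / 2), 0 ≤ t.1 ∧ t.1 ≤ 1 := fun t =>
      ⟨t.2.1.le, by linarith [t.2.2]⟩
    have hiso := fun t : Ioo (0 : ℝ) (1 / 2) => exists_iso (Γ := Γ) hμ (h01 t).1 (h01 t).2
    choose e he using hiso
    let a : Ioo (0 : ℝ) (1 / 2) → PmpAction Γ μ := fun t => conj (h01 t).1 (h01 t).2 (e t) (he t)
    have hinc : ∀ t t', t ≠ t' → ¬ WeaklyContained (a t) (a t') := fun t t' hne =>
      incomparable hΓ t.2.1 t.2.2 t'.2.1 t'.2.2 (fun h => hne (Subtype.ext h)) _ _ _ _ _ _ _ _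
    have hself : ∀ b : PmpAction Γ μ, WeaklyContained b b := fun b F ε hε n A hA =>
      ⟨A, hA, fun g _ i j => by simpa using hε⟩
    have hinj : Function.Injective a := by
      intro t t' h
      by_contra hne
      apply hinc t t' hne
      rw [h]
      exact hself _
    refine ⟨range a, ⟨?_, ?_⟩, ?_⟩
    · rintro _ ⟨t, rfl⟩
      exact conj_free _ _ _ _
    · rintro _ ⟨t, rfl⟩ _ ⟨t', rfl⟩ hne
      have hne' : t ≠ t' := fun h => hne (by rw [h])
      exact ⟨hinc t t' hne', hinc t' t hne'.symm⟩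
    · rw [mk_range_eq a hinj]
      exact mk_Ioo_real (by norm_num)
  refine ⟨hex, hub, le_antisymm ?_ ?_⟩
  · exact ciSup_le' fun 𝒜 => hub 𝒜.1 𝒜.2
  · obtain ⟨𝒜, h1, h2⟩ := hex
    rw [← h2]
    exact le_ciSup (f := fun 𝒜 : {𝒜 : Set (PmpAction Γ μ) // IsFreeAntichain 𝒜} => #(𝒜.1))
      Cardinal.bddAbove_of_small ⟨𝒜, h1⟩

end Pool.Agent.Results.MP_651bcb_an.WidthContinuum
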